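import Pool.Agent.Helper58.R3.Stmts

/-!
# MP_7ef5a1_co: 3-connected triangle-free graphs of minimum degree three, module KEX
-/

set_option autoImplicit false
open Classical

namespace Pool.Agent.Helper58.R3

theorem st_KEX : ST_KEX := by
  intro m H v0 Z ψ hK hW _ hD hdeg
  have hex : ∃ k, ψ^[k] v0 ∈ Z := by
    by_contra hc
    push Not at hc
    let S : Finset (Fin m) := Finset.univ.filter (fun x => Per Z ψ x)
    have hS : ∀ x, x ∈ S ↔ Per Z ψ x := by
      intro x
      simp [S]
    have himg : S.image ψ ⊆ S := by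
      intro y hy
      obtain ⟨x, hx, rfl⟩ := Finset.mem_image.1 hy
      rw [hS] at hx ⊢
      intro j
      have := hx (j + 1)
      rwa [Function.iterate_succ_apply] at this
    have hinj : Set.InjOn ψ (S : Set (Fin m)) := by
      intro x hx y hy he
      have hx' : Per Z ψ x := (hS x).1 (by exact_mod_cast hx)
      have hy' : Per Z ψ y := (hS y).1 (by exact_mod_cast hy)
      exact hW.inj x y (hx' 0) (hy' 0) he
    have heq : S.image ψ = S :=
      Finset.eq_of_subset_of_card_le himg (le_of_eq (Finset.card_image_of_injOn hinj).symm)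
    have hv : v0 ∈ S.image ψ := by
      rw [heq, hS]
      exact hc
    obtain ⟨x, hx, hxe⟩ := Finset.mem_image.1 hv
    exact hW.nv x (((hS x).1 hx) 0) hxe
  refine ⟨Nat.find hex, hK, hW, hD, hdeg, ?_, Nat.find_spec hex, fun j hj => Nat.find_min hex hj⟩
  rcases Nat.eq_zero_or_pos (Nat.find hex) with h | h
  · have h2 := Nat.find_spec hex
    rw [h] at h2
    exact absurd h2 hW.v0Z
  · exact h

end Pool.Agent.Helper58.R3
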